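import Mathlib
import Pool.Agent.Helper549.Tri.Defs
import Pool.Agent.Helper549.Tri.Basic
import Pool.Agent.Helper549.Tri.Angles
import Pool.Agent.Helper549.Tri.Odd
import Pool.Agent.Helper549.Tri.Setup

/-!
# Equilateral triangles dissected into triangles with an angle of 120 degrees

Weights modulo `b` on the directions of the sides: `φ (± z0 e^{i j β}) = ± (a/c)^j`.
-/

set_option autoImplicit false

noncomputable section

namespace Pool.Agent.R173.Tri120

open Pool.Agent.Helper549.Tri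
open Real

/-! ## The weight -/

/-- the rotation by `j β` -/
def E (β : ℝ) (j : ℤ) : ℂ := Complex.exp ((j * β : ℝ) * Complex.I)

lemma E_zero (β : ℝ) : E β 0 = 1 := by simp [E]

lemma E_add (β : ℝ) (i j : ℤ) : E β (i + j) = E β i * E β j := by
  unfold E
  rw [← Complex.exp_add]
  congr 1
  push_cast
  ring

lemma E_ne (β : ℝ) (j : ℤ) : E β j ≠ 0 := Complex.exp_ne_zero _

lemma E_pow (β : ℝ) (j : ℤ) (n : ℕ) : E β j ^ n = E β (n * j) := by
  induction n with
  | zero => simp [E_zero]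
  | succ n ih =>
    rw [pow_succ, ih, ← E_add]
    congr 1
    push_cast
    ring

lemma E_one_imp {β : ℝ} (hβ : ¬ ∃ q : ℚ, β = q * π) {j : ℤ} (h : E β j = 1) : j = 0 := by
  unfold E at h
  rw [Complex.exp_eq_one_iff] at h
  obtain ⟨n, hn⟩ := h
  by_contra hj
  apply hβ
  have hI := Complex.I_ne_zero
  have h1 : (((j * β : ℝ) : ℂ)) = ((n * (2 * π) : ℝ) : ℂ) := by
    apply mul_right_cancel₀ hI
    rw [hn]
    push_cast
    ring
  have h2 : (j : ℝ) * β = n * (2 * π) := by exact_mod_cast h1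
  have hj' : (j : ℝ) ≠ 0 := by exact_mod_cast hj
  refine ⟨(2 * n) / j, ?_⟩
  push_cast
  field_simp
  linarith

lemma E_six {β : ℝ} (hβ : ¬ ∃ q : ℚ, β = q * π) {j : ℤ} (h : E β j ^ 6 = 1) : j = 0 := by
  rw [E_pow] at h
  have := E_one_imp hβ h
  push_cast at this
  omega

/-- value of the weight on the `j`-th rotate -/
def val (s : ℤ) (j : ℤ) : ℤ := if Even j then 1 else s

open Classical in
/-- the weight -/
def wt (β : ℝ) (z0 : ℂ) (s : ℤ) (z : ℂ) : ℤ :=
  if h : ∃ j : ℤ, z = z0 * E β j then val s h.choose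
  else if h : ∃ j : ℤ, z = -(z0 * E β j) then - val s h.choose
  else 0

lemma wt_pos {β : ℝ} (hβ : ¬ ∃ q : ℚ, β = q * π) {z0 : ℂ} (hz : z0 ≠ 0) (s : ℤ) (j : ℤ) :
    wt β z0 s (z0 * E β j) = val s j := by
  unfold wt
  have h : ∃ j' : ℤ, z0 * E β j = z0 * E β j' := ⟨j, rfl⟩
  rw [dif_pos h]
  have h1 := mul_left_cancel₀ hz h.choose_spec
  have h2 : E β (j - h.choose) = 1 := by
    have : E β (j - h.choose) * E β h.choose = E β j := by
      rw [← E_add]; congr 1; ring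
    apply mul_right_cancel₀ (E_ne β h.choose)
    rw [this, one_mul]; exact h1
  have h3 := E_one_imp hβ h2
  congr 1
  omega

lemma no_both {β : ℝ} (hβ : ¬ ∃ q : ℚ, β = q * π) {z0 : ℂ} (hz : z0 ≠ 0) {j j' : ℤ}
    (h : -(z0 * E β j) = z0 * E β j') : False := by
  have h1 : E β j' = - E β j := by
    apply mul_left_cancel₀ hz
    rw [← h]; ring
  have h2 : E β (j' - j) = -1 := by
    have : E β (j' - j) * E β j = E β j' := by
      rw [← E_add]; congr 1; ring
    apply mul_right_cancel₀ (E_ne β j)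
    rw [this, h1]; ring
  have h3 : E β (j' - j) ^ 6 = 1 := by rw [h2]; norm_num
  have h4 := E_six hβ h3
  rw [h4, E_zero] at h2
  norm_num at h2

lemma wt_neg' {β : ℝ} (hβ : ¬ ∃ q : ℚ, β = q * π) {z0 : ℂ} (hz : z0 ≠ 0) (s : ℤ) (j : ℤ) :
    wt β z0 s (-(z0 * E β j)) = - val s j := by
  unfold wt
  have h0 : ¬ ∃ j' : ℤ, -(z0 * E β j) = z0 * E β j' := by
    rintro ⟨j', hj'⟩
    exact no_both hβ hz hj'
  rw [dif_neg h0]
  have h : ∃ j' : ℤ, -(z0 * E β j) = -(z0 * E β j') := ⟨j, rfl⟩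
  rw [dif_pos h]
  have h1 := mul_left_cancel₀ hz (neg_injective h.choose_spec)
  have h2 : E β (j - h.choose) = 1 := by
    have : E β (j - h.choose) * E β h.choose = E β j := by
      rw [← E_add]; congr 1; ring
    apply mul_right_cancel₀ (E_ne β h.choose)
    rw [this, one_mul]; exact h1
  have h3 := E_one_imp hβ h2
  congr 2
  omega

lemma wt_zero {β : ℝ} {z0 : ℂ} (s : ℤ) {z : ℂ} (h1 : ¬ ∃ j : ℤ, z = z0 * E β j)
    (h2 : ¬ ∃ j : ℤ, z = -(z0 * E β j)) : wt β z0 s z = 0 := by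
  unfold wt
  rw [dif_neg h1, dif_neg h2]

lemma wt_odd {β : ℝ} (hβ : ¬ ∃ q : ℚ, β = q * π) {z0 : ℂ} (hz : z0 ≠ 0) (s : ℤ) (z : ℂ) :
    wt β z0 s (-z) = - wt β z0 s z := by
  by_cases h1 : ∃ j : ℤ, z = z0 * E β j
  · obtain ⟨j, rfl⟩ := h1
    rw [wt_neg' hβ hz, wt_pos hβ hz]
  · by_cases h2 : ∃ j : ℤ, z = -(z0 * E β j)
    · obtain ⟨j, rfl⟩ := h2
      rw [neg_neg, wt_neg' hβ hz, wt_pos hβ hz, neg_neg]
    · rw [wt_zero s h1 h2, wt_zero s, neg_zero]
      · rintro ⟨j, hj⟩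
        exact h2 ⟨j, by rw [← hj, neg_neg]⟩
      · rintro ⟨j, hj⟩
        exact h1 ⟨j, neg_injective hj⟩

lemma val_succ {s b : ℤ} (hs : b ∣ s * s - 1) (j : ℤ) : b ∣ val s (j + 1) - s * val s j := by
  unfold val
  by_cases hj : Even j
  · rw [if_pos hj, if_neg (by rw [Int.even_add_one]; simpa using hj)]
    simp
  · rw [if_neg hj, if_pos (by rw [Int.even_add_one]; exact hj)]
    have : (1 : ℤ) - s * s = -(s * s - 1) := by ring
    rw [this]
    exact (dvd_neg).2 hs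

/-- rotating by `β` multiplies the weight by `s` modulo `b` -/
lemma wt_rot {β : ℝ} (hβ : ¬ ∃ q : ℚ, β = q * π) {z0 : ℂ} (hz : z0 ≠ 0) {s b : ℤ}
    (hs : b ∣ s * s - 1) (z : ℂ) : b ∣ wt β z0 s (E β 1 * z) - s * wt β z0 s z := by
  by_cases h1 : ∃ j : ℤ, z = z0 * E β j
  · obtain ⟨j, rfl⟩ := h1
    have e : E β 1 * (z0 * E β j) = z0 * E β (j + 1) := by rw [E_add]; ring
    rw [e, wt_pos hβ hz, wt_pos hβ hz]
    exact val_succ hs j
  · by_cases h2 : ∃ j : ℤ, z = -(z0 * E β j)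
    · obtain ⟨j, rfl⟩ := h2
      have e : E β 1 * -(z0 * E β j) = -(z0 * E β (j + 1)) := by rw [E_add]; ring
      rw [e, wt_neg' hβ hz, wt_neg' hβ hz]
      have := val_succ hs j
      have e2 : -val s (j + 1) - s * -val s j = -(val s (j + 1) - s * val s j) := by ring
      rw [e2]
      exact (dvd_neg).2 this
    · rw [wt_zero s h1 h2, wt_zero s]
      · simp
      · rintro ⟨j, hj⟩
        apply h1
        refine ⟨j - 1, ?_⟩
        apply mul_left_cancel₀ (E_ne β 1)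
        rw [hj]
        have : E β j = E β 1 * E β (j - 1) := by rw [← E_add]; congr 1; ring
        rw [this]; ring
      · rintro ⟨j, hj⟩
        apply h2
        refine ⟨j - 1, ?_⟩
        apply mul_left_cancel₀ (E_ne β 1)
        rw [hj]
        have : E β j = E β 1 * E β (j - 1) := by rw [← E_add]; congr 1; ring
        rw [this]; ring

/-- a number whose sixth power is one and which is not `± 1` rotates the support off itself -/
lemma wt_off {β : ℝ} (hβ : ¬ ∃ q : ℚ, β = q * π) {z0 : ℂ} (hz : z0 ≠ 0) (s : ℤ) {ω : ℂ}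
    (h6 : ω ^ 6 = 1) (h1 : ω ≠ 1) (h2 : ω ≠ -1) : wt β z0 s (ω * z0) = 0 := by
  apply wt_zero
  · rintro ⟨j, hj⟩
    have e : ω = E β j := by
      apply mul_right_cancel₀ hz
      rw [hj]; ring
    rw [e] at h6
    have := E_six hβ h6
    rw [this, E_zero] at e
    exact h1 e
  · rintro ⟨j, hj⟩
    have e : ω = - E β j := by
      apply mul_right_cancel₀ hz
      rw [hj]; ring
    rw [e, neg_pow] at h6
    have h6' : E β j ^ 6 = 1 := by
      have : (-1 : ℂ) ^ 6 = 1 := by norm_num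
      rw [this, one_mul] at h6
      exact h6
    have := E_six hβ h6'
    rw [this, E_zero] at e
    exact h2 e


lemma E_neg_one (β : ℝ) : E β (-1) = Complex.exp (-(β : ℂ) * Complex.I) := by
  unfold E
  congr 1
  push_cast
  ring

lemma wt_rot_neg {β : ℝ} (hβ : ¬ ∃ q : ℚ, β = q * π) {z0 : ℂ} (hz : z0 ≠ 0) {s b : ℤ}
    (hs : b ∣ s * s - 1) (z : ℂ) : b ∣ wt β z0 s (E β (-1) * z) - s * wt β z0 s z := by
  have h := wt_rot hβ hz hs (E β (-1) * z)
  have e : E β 1 * (E β (-1) * z) = z := by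
    rw [← mul_assoc, ← E_add]
    norm_num [E_zero]
  rw [e] at h
  obtain ⟨k, hk⟩ := h
  obtain ⟨l, hl⟩ := hs
  refine ⟨-(s * k) - l * wt β z0 s (E β (-1) * z), ?_⟩
  linear_combination (-s) * hk - wt β z0 s (E β (-1) * z) * hl

/-- the sum over the sides of one tile vanishes modulo `b` -/
lemma tile_sum {v : Fin 3 → ℂ} (hv : 0 < dd v) (τ : Equiv.Perm (Fin 3)) {β : ℝ}
    (hβ : ¬ ∃ q : ℚ, β = q * π) (hang : ∀ m, τ m = 1 → ang v m = β)
    {z0 : ℂ} (hz : z0 ≠ 0) {s a b c : ℤ} (hs : b ∣ s * s - 1) (hc : b ∣ c * s - a)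
    (L : Fin 3 → ℤ) (hL0 : L 0 = a) (hL1 : L 1 = b) (hL2 : L 2 = c) :
    b ∣ ∑ m, L (τ m) * wt β z0 s (dir v m) := by
  obtain ⟨k, hk⟩ : ∃ k, τ k = 1 := ⟨τ.symm 1, by simp⟩
  have hrel := Angles.dir_rel v hv k
  rw [hang k hk, ← E_neg_one] at hrel
  have hrel' : dir v (k + 2) = -(E β (-1) * dir v (k + 1)) := by rw [hrel]; ring
  have hw : wt β z0 s (dir v (k + 2)) = - wt β z0 s (E β (-1) * dir v (k + 1)) := by
    rw [hrel', wt_odd hβ hz]
  have h1 := wt_rot_neg hβ hz hs (dir v (k + 1))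
  have hsum : ∑ m, L (τ m) * wt β z0 s (dir v m) =
      L (τ k) * wt β z0 s (dir v k) + L (τ (k + 1)) * wt β z0 s (dir v (k + 1)) +
        L (τ (k + 2)) * wt β z0 s (dir v (k + 2)) := by
    rw [Fin.sum_univ_three]
    fin_cases k
    · rfl
    · show _ = L (τ 1) * wt β z0 s (dir v 1) + L (τ 2) * wt β z0 s (dir v 2) +
        L (τ 0) * wt β z0 s (dir v 0)
      ring
    · show _ = L (τ 2) * wt β z0 s (dir v 2) + L (τ 0) * wt β z0 s (dir v 0) +
        L (τ 1) * wt β z0 s (dir v 1)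
      ring
  rw [hsum, hk, hL1, hw]
  obtain ⟨x, hx⟩ := h1
  obtain ⟨y, hy⟩ := hs
  obtain ⟨w, hwc⟩ := hc
  have hcase : (τ (k + 1) = 0 ∧ τ (k + 2) = 2) ∨ (τ (k + 1) = 2 ∧ τ (k + 2) = 0) := by
    have n1 : τ (k + 1) ≠ 1 := by
      intro h
      have := τ.injective (h.trans hk.symm)
      revert this; fin_cases k <;> decide
    have n2 : τ (k + 2) ≠ 1 := by
      intro h
      have := τ.injective (h.trans hk.symm)
      revert this; fin_cases k <;> decide
    have n3 : τ (k + 1) ≠ τ (k + 2) := by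
      intro h
      have := τ.injective h
      revert this; fin_cases k <;> decide
    generalize τ (k + 1) = p at n1 n2 n3
    generalize τ (k + 2) = q at n1 n2 n3
    revert p q
    decide
  rcases hcase with ⟨e1, e2⟩ | ⟨e1, e2⟩
  · rw [e1, e2, hL0, hL2]
    refine ⟨wt β z0 s (dir v k) - c * x - w * wt β z0 s (dir v (k + 1)), ?_⟩
    linear_combination (-c) * hx - wt β z0 s (dir v (k + 1)) * hwc
  · rw [e1, e2, hL0, hL2]
    refine ⟨wt β z0 s (dir v k) - a * x + (s * w - c * y) * wt β z0 s (dir v (k + 1)), ?_⟩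
    linear_combination (-a) * hx + (s * wt β z0 s (dir v (k + 1))) * hwc
      - (c * wt β z0 s (dir v (k + 1))) * hy

/-- the weighted boundary sum of an equilateral triangle -/
lemma big_sum {T : Fin 3 → ℂ} (hT : 0 < dd T) (hang : ∀ j, ang T j = π / 3) {β : ℝ}
    (hβ : ¬ ∃ q : ℚ, β = q * π) (s : ℤ) :
    wt β (dir T 0) s (dir T 0) = 1 ∧ wt β (dir T 0) s (dir T 1) = 0 ∧
      wt β (dir T 0) s (dir T 2) = 0 := by
  have hz : dir T 0 ≠ 0 := by
    intro h
    have := Basic.norm_dir T hT 0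
    rw [h, norm_zero] at this
    norm_num at this
  have hω : Complex.exp (-(((π / 3 : ℝ)) : ℂ) * Complex.I) = (1 / 2 : ℝ) - (√3 / 2 : ℝ) * Complex.I := by
    have : -(((π / 3 : ℝ)) : ℂ) * Complex.I = ((-(π / 3) : ℝ) : ℂ) * Complex.I := by push_cast; ring
    rw [this, Complex.exp_mul_I, ← Complex.ofReal_cos, ← Complex.ofReal_sin, Real.cos_neg, Real.sin_neg,
      Real.cos_pi_div_three, Real.sin_pi_div_three]
    push_cast
    ring
  obtain ⟨ω, hωd⟩ : ∃ ω : ℂ, ω = -Complex.exp (-(((π / 3 : ℝ)) : ℂ) * Complex.I) := ⟨_, rfl⟩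
  have hωv : ω = -(1 / 2 : ℝ) + (√3 / 2 : ℝ) * Complex.I := by rw [hωd, hω]; ring
  have h3 : (√3 : ℝ) * √3 = 3 := Real.mul_self_sqrt (by norm_num)
  have hωre : ω.re = -(1 / 2) := by rw [hωv]; simp
  have hωim : ω.im = √3 / 2 := by rw [hωv]; simp
  have hsq : ω ^ 2 = -(1 / 2 : ℝ) - (√3 / 2 : ℝ) * Complex.I := by
    apply Complex.ext
    · rw [sq, Complex.mul_re, hωre, hωim]
      simp
      nlinarith
    · rw [sq, Complex.mul_im, hωre, hωim]
      simp
      ring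
  have hcube : ω ^ 3 = 1 := by
    rw [pow_succ, hsq, hωv]
    have hI := Complex.I_sq
    have h3c : ((√3 : ℝ) : ℂ) * ((√3 : ℝ) : ℂ) = 3 := by exact_mod_cast h3
    push_cast
    linear_combination (-(((√3 : ℝ) : ℂ) ^ 2) / 4) * hI + (1 / 4) * h3c
  have h6 : ω ^ 6 = 1 := by
    have : ω ^ 6 = (ω ^ 3) ^ 2 := by ring
    rw [this, hcube]; norm_num
  have him : ω.im ≠ 0 := by
    rw [hωim]; positivity
  have him2 : (ω ^ 2).im ≠ 0 := by
    rw [hsq]
    simp
  have n1 : ω ≠ 1 := by intro h; apply him; rw [h]; simp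
  have n2 : ω ≠ -1 := by intro h; apply him; rw [h]; simp
  have n3 : ω ^ 2 ≠ 1 := by intro h; apply him2; rw [h]; simp
  have n4 : ω ^ 2 ≠ -1 := by intro h; apply him2; rw [h]; simp
  have r1 : dir T 1 = ω * dir T 0 := by
    have := Angles.dir_rel T hT 2
    rw [hang 2] at this
    rw [hωd]
    exact this
  have r2 : dir T 2 = ω * dir T 1 := by
    have := Angles.dir_rel T hT 0
    rw [hang 0] at this
    rw [hωd]
    exact this
  refine ⟨?_, ?_, ?_⟩
  · have h := wt_pos hβ hz s 0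
    rw [E_zero, mul_one] at h
    rw [h]
    simp [val]
  · rw [r1]
    exact wt_off hβ hz s h6 n1 n2
  · have : dir T 2 = ω ^ 2 * dir T 0 := by rw [r2, r1]; ring
    rw [this]
    exact wt_off hβ hz s (by rw [← pow_mul]; rw [pow_mul', h6]; norm_num) n3 n4

end Pool.Agent.R173.Tri120
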