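import Mathlib
import Pool.Agent.R173.Tri120

/-!
# Equilateral triangles dissected into triangles with an angle of 120 degrees: the theorem
-/

set_option autoImplicit false

noncomputable section

namespace Pool.Agent.R173.Tri120

open Pool.Agent.Helper549.Tri Pool.Agent.Helper549.Tri.Setup
open Real

abbrev Plane := EuclideanSpace ℝ (Fin 2)

/-- side lengths opposite to the vertices `0`, `1`, `2` -/
def HasSides (p : Fin 3 → Plane) (x y z : ℝ) : Prop :=
  dist (p 1) (p 2) = x ∧ dist (p 2) (p 0) = y ∧ dist (p 0) (p 1) = z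

lemma affInd {p : Fin 3 → Plane} {x y z : ℝ} (h : HasSides p x y z)
    (h1 : x < y + z) (h2 : y < z + x) (h3 : z < x + y) : AffineIndependent ℝ p := by
  obtain ⟨hx, hy, hz⟩ := h
  have ha : p = ![p 0, p 1, p 2] := by
    funext i; fin_cases i <;> rfl
  rw [ha, affineIndependent_iff_not_collinear_set]
  intro hc
  rcases hc.wbtw_or_wbtw_or_wbtw with g | g | g
  · have := g.dist_add_dist
    rw [hz, hx, dist_comm, hy] at this
    linarith
  · have := g.dist_add_dist
    rw [hx, hy, dist_comm, hz] at this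
    linarith
  · have := g.dist_add_dist
    rw [hy, hz, dist_comm, hx] at this
    linarith

/-- the set-up with explicit lengths and angles -/
theorem setup' {N : ℕ} [NeZero N] (A : Fin 3 → Plane)
    (P : Fin N → Fin 3 → Plane) (hA : AffineIndependent ℝ A)
    (hP : ∀ i, AffineIndependent ℝ (P i))
    (hdist : ∀ i, ∃ σ : Equiv.Perm (Fin 3), ∀ k l,
      dist (P i k) (P i l) = dist (P 0 (σ k)) (P 0 (σ l)))
    (hU : (⋃ i, convexHull ℝ (Set.range (P i))) = convexHull ℝ (Set.range A))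
    (hD : ∀ i j, i ≠ j → Disjoint (interior (convexHull ℝ (Set.range (P i))))
          (interior (convexHull ℝ (Set.range (P j))))) :
    ∃ (T : Fin 3 → ℂ) (t : Fin N → Fin 3 → ℂ) (τ : Fin N → Equiv.Perm (Fin 3))
      (ρ : Equiv.Perm (Fin 3)),
      Dis N T t ∧ (∀ i m, len (t i) m = dist (P 0 (τ i m + 1)) (P 0 (τ i m + 2))) ∧
      (∀ i m, ang (t i) m =
        EuclideanGeometry.angle (P 0 (τ i m + 1)) (P 0 (τ i m)) (P 0 (τ i m + 2))) ∧
      (∀ k, len T k = dist (A (ρ (k + 1))) (A (ρ (k + 2)))) := by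
  obtain ⟨ρ, hρ⟩ := orient A hA
  choose r hr using fun i => orient (P i) (hP i)
  choose σ hσ using hdist
  have hd : ∀ i a b, dist (eC (P i (r i a))) (eC (P i (r i b))) =
      dist (P 0 (σ i (r i a))) (P 0 (σ i (r i b))) := by
    intro i a b
    rw [eC.dist_map, hσ]
  refine ⟨fun k => eC (A (ρ k)), fun i k => eC (P i (r i k)), fun i => (r i).trans (σ i), ρ,
    ?_, ?_, ?_, ?_⟩
  · refine ⟨hρ, hr, ?_, ?_⟩
    · rw [hull_img A ρ, ← hU, Set.image_iUnion]
      refine Set.iUnion_congr fun i => ?_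
      exact hull_img (P i) (r i)
    · intro i j hij
      rw [hull_img (P i) (r i), hull_img (P j) (r j)]
      have h1 : ∀ S : Set (EuclideanSpace ℝ (Fin 2)), interior (eC '' S) = eC '' interior S :=
        fun S => (eC.toHomeomorph.image_interior S).symm
      rw [h1, h1]
      exact (Set.disjoint_image_iff eC.injective).2 (hD i j hij)
  · intro i m
    show ‖eC (P i (r i (m + 2))) - eC (P i (r i (m + 1)))‖ = _
    rw [← dist_eq_norm, hd]
    show dist (P 0 (((r i).trans (σ i)) (m + 2))) (P 0 (((r i).trans (σ i)) (m + 1))) =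
      dist (P 0 (((r i).trans (σ i)) m + 1)) (P 0 (((r i).trans (σ i)) m + 2))
    rcases perm3 ((r i).trans (σ i)) m with ⟨h1, h2⟩ | ⟨h1, h2⟩
    · rw [h1, h2, dist_comm]
    · rw [h1, h2]
  · intro i m
    show EuclideanGeometry.angle (eC (P i (r i (m + 1)))) (eC (P i (r i m)))
      (eC (P i (r i (m + 2)))) = EuclideanGeometry.angle (P 0 (((r i).trans (σ i)) m + 1))
        (P 0 (((r i).trans (σ i)) m)) (P 0 (((r i).trans (σ i)) m + 2))
    rw [angle_of_dist _ _ _ (P 0 (((r i).trans (σ i)) (m + 1)))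
        (P 0 (((r i).trans (σ i)) m)) (P 0 (((r i).trans (σ i)) (m + 2))) (hd i _ _)
        (hd i _ _) (hd i _ _)]
    rcases perm3 ((r i).trans (σ i)) m with ⟨h1, h2⟩ | ⟨h1, h2⟩
    · rw [h1, h2]
    · rw [h1, h2, EuclideanGeometry.angle_comm]
  · intro k
    show ‖eC (A (ρ (k + 2))) - eC (A (ρ (k + 1)))‖ = _
    rw [← dist_eq_norm, eC.dist_map, dist_comm]

/-- angles of a triangle with three equal sides -/
lemma ang_third (v : Fin 3 → ℂ) (hv : 0 < dd v) {X : ℝ} (hX : ∀ k, len v k = X) (j : Fin 3) :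
    ang v j = π / 3 := by
  have hX0 : 0 < X := by rw [← hX 0]; exact Basic.len_pos v hv 0
  have d1 : dist (v (j + 1)) (v (j + 2)) = X := by
    rw [dist_comm, dist_eq_norm, ← hX j]; rfl
  have d2 : dist (v (j + 1)) (v j) = X := by
    rw [dist_eq_norm, ← hX (j + 2)]
    unfold len sd
    congr 2
    · congr 1; fin_cases j <;> rfl
    · congr 1; fin_cases j <;> rfl
  have d3 : dist (v (j + 2)) (v j) = X := by
    rw [dist_comm, dist_eq_norm, ← hX (j + 1)]
    unfold len sd
    congr 2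
    · congr 1; fin_cases j <;> rfl
    · congr 1; fin_cases j <;> rfl
  have hlaw := EuclideanGeometry.dist_sq_eq_dist_sq_add_dist_sq_sub_two_mul_dist_mul_dist_mul_cos_angle
    (v (j + 1)) (v j) (v (j + 2))
  rw [d1, d2, d3] at hlaw
  have hcos : Real.cos (ang v j) = 1 / 2 := by
    unfold ang
    have h2 : X * X * (2 * Real.cos (EuclideanGeometry.angle (v (j + 1)) (v j) (v (j + 2))) - 1) = 0 := by
      linarith
    have h3 : X * X ≠ 0 := by positivity
    have := (mul_eq_zero.1 h2).resolve_left h3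
    linarith
  apply Real.injOn_cos ⟨(Angles.ang_pos v hv j).le, (Angles.ang_lt_pi v hv j).le⟩
    ⟨by positivity, by linarith [Real.pi_pos]⟩
  rw [hcos, Real.cos_pi_div_three]

/-- arithmetic: the square root of one modulo `b` -/
lemma exists_s {a b c : ℤ} (hcb : IsCoprime c b) (hc : c ^ 2 = a ^ 2 + b ^ 2 + a * b) :
    ∃ s : ℤ, b ∣ c * s - a ∧ b ∣ s * s - 1 := by
  obtain ⟨u, v, huv⟩ := hcb
  refine ⟨a * u, ⟨-(a * v), ?_⟩, ?_⟩
  · linear_combination a * huv
  · have h1 : b ∣ c ^ 2 * ((a * u) * (a * u) - 1) := by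
      have hk : c * (a * u) - a = b * -(a * v) := by linear_combination a * huv
      refine ⟨-(a * v) * (c * (a * u) + a) - (b + a), ?_⟩
      linear_combination (c * (a * u) + a) * hk - hc
    have h2 : IsCoprime b (c ^ 2) := (IsCoprime.pow_left ⟨u, v, huv⟩).symm
    exact h2.dvd_of_dvd_mul_left h1

/-- the angle opposite to `b` is not a rational multiple of `π` -/
lemma beta_irr {a b c : ℕ} (ha : 0 < a) (hb : 0 < b) (hc : c ^ 2 = a ^ 2 + b ^ 2 + a * b)
    {p : Fin 3 → Plane} (hp : HasSides p a b c) :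
    ¬ ∃ q : ℚ, EuclideanGeometry.angle (p 2) (p 1) (p 0) = q * π := by
  obtain ⟨h1, h2, h3⟩ := hp
  have hc0 : 0 < c := by
    rcases Nat.eq_zero_or_pos c with h | h
    · subst h; exfalso; have : 0 < a ^ 2 := by positivity
      omega
    · exact h
  have ha' : (0 : ℝ) < a := by exact_mod_cast ha
  have hb' : (0 : ℝ) < b := by exact_mod_cast hb
  have hc' : (0 : ℝ) < c := by exact_mod_cast hc0
  have hcR : (c : ℝ) ^ 2 = a ^ 2 + b ^ 2 + a * b := by exact_mod_cast hc
  have hlaw := EuclideanGeometry.dist_sq_eq_dist_sq_add_dist_sq_sub_two_mul_dist_mul_dist_mul_cos_angle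
    (p 2) (p 1) (p 0)
  rw [h2, dist_comm (p 2) (p 1), h1, h3] at hlaw
  have hcos : Real.cos (EuclideanGeometry.angle (p 2) (p 1) (p 0)) = (2 * a + b) / (2 * c) := by
    rw [eq_div_iff (by positivity)]
    apply mul_left_cancel₀ ha'.ne'
    nlinarith
  intro hq
  have hn := niven hq ⟨(2 * a + b) / (2 * c), by rw [hcos]; push_cast; ring⟩
  rw [hcos] at hn
  have hpos : (0 : ℝ) < (2 * a + b) / (2 * c) := by positivity
  simp only [Set.mem_insert_iff, Set.mem_singleton_iff] at hn
  rcases hn with h | h | h | h | h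
  · linarith
  · linarith
  · linarith
  · rw [div_eq_iff (by positivity)] at h
    have : (2 * a + b : ℝ) = c := by linarith
    have h4 : (2 * a + b : ℝ) ^ 2 = (c : ℝ) ^ 2 := by rw [this]
    nlinarith
  · rw [div_eq_iff (by positivity)] at h
    have : (2 * a + b : ℝ) = 2 * c := by linarith
    have h4 : (2 * a + b : ℝ) ^ 2 = (2 * c : ℝ) ^ 2 := by rw [this]
    nlinarith

lemma lens {p : Fin 3 → Plane} {x y z : ℝ} (h : HasSides p x y z) (k : Fin 3) :
    dist (p (k + 1)) (p (k + 2)) = (![x, y, z] : Fin 3 → ℝ) k := by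
  fin_cases k
  · exact h.1
  · exact h.2.1
  · exact h.2.2

lemma sides_lt {a b c : ℕ} (ha : 0 < a) (hb : 0 < b) (hc : c ^ 2 = a ^ 2 + b ^ 2 + a * b) :
    (a : ℝ) < b + c ∧ (b : ℝ) < c + a ∧ (c : ℝ) < a + b := by
  have h1 : a < c := by
    by_contra h
    push Not at h
    have : c ^ 2 ≤ a ^ 2 := Nat.pow_le_pow_left h 2
    have : 0 < b ^ 2 := by positivity
    have : 0 < a * b := by positivity
    omega
  have h2 : b < c := by
    by_contra h
    push Not at h
    have : c ^ 2 ≤ b ^ 2 := Nat.pow_le_pow_left h 2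
    have : 0 < a ^ 2 := by positivity
    have : 0 < a * b := by positivity
    omega
  have h3 : c < a + b := by
    by_contra h
    push Not at h
    have : (a + b) ^ 2 ≤ c ^ 2 := Nat.pow_le_pow_left h 2
    have : 0 < a * b := by positivity
    nlinarith
  refine ⟨?_, ?_, ?_⟩
  · exact_mod_cast (by omega : a < b + c)
  · exact_mod_cast (by omega : b < c + a)
  · exact_mod_cast h3

/-- **Main theorem, one side.** -/
theorem dvd_side {a b c : ℕ} (ha : 0 < a) (hb : 0 < b) (hab : Nat.Coprime a b)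
    (hc : c ^ 2 = a ^ 2 + b ^ 2 + a * b) {X : ℝ} (hX : 0 < X) {A : Fin 3 → Plane}
    (hA : HasSides A X X X) {N : ℕ} {P : Fin N → Fin 3 → Plane} (hP : ∀ i, HasSides (P i) a b c)
    (hU : (⋃ i, convexHull ℝ (Set.range (P i))) = convexHull ℝ (Set.range A))
    (hD : ∀ i j, i ≠ j → Disjoint (interior (convexHull ℝ (Set.range (P i))))
          (interior (convexHull ℝ (Set.range (P j))))) :
    ∃ M : ℤ, X = M ∧ (b : ℤ) ∣ M := by
  have hN : N ≠ 0 := by
    rintro rfl
    have h1 : A 0 ∈ convexHull ℝ (Set.range A) := subset_convexHull ℝ _ (Set.mem_range_self 0)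
    rw [← hU] at h1
    obtain ⟨i, -⟩ := Set.mem_iUnion.1 h1
    exact i.elim0
  have : NeZero N := ⟨hN⟩
  obtain ⟨s1, s2, s3⟩ := sides_lt ha hb hc
  have iA := affInd hA (by linarith) (by linarith) (by linarith)
  have iP := fun i => affInd (hP i) s1 s2 s3
  have hdist : ∀ i, ∃ σ : Equiv.Perm (Fin 3), ∀ k l,
      dist (P i k) (P i l) = dist (P 0 (σ k)) (P 0 (σ l)) := by
    intro i
    refine ⟨Equiv.refl _, fun k l => ?_⟩
    obtain ⟨p1, p2, p3⟩ := hP i
    obtain ⟨q1, q2, q3⟩ := hP 0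
    fin_cases k <;> fin_cases l <;>
      simp only [Fin.zero_eta, Fin.mk_one, Fin.reduceFinMk, dist_self, Equiv.refl_apply]
    · rw [p3, q3]
    · rw [dist_comm, p2, dist_comm, q2]
    · rw [dist_comm, p3, dist_comm, q3]
    · rw [p1, q1]
    · rw [p2, q2]
    · rw [dist_comm, p1, dist_comm, q1]
  obtain ⟨T, t, τ, ρ, hdis, hlen, hang, hlT⟩ := setup' A P iA iP hdist hU hD
  have hTX : ∀ k, len T k = X := by
    intro k
    rw [hlT]
    obtain ⟨p1, p2, p3⟩ := hA
    have hne : ρ (k + 1) ≠ ρ (k + 2) := by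
      intro h
      have := ρ.injective h
      revert this; fin_cases k <;> decide
    generalize ρ (k + 1) = x at hne
    generalize ρ (k + 2) = y at hne
    fin_cases x <;> fin_cases y <;> first | exact absurd rfl hne | assumption | (rw [dist_comm]; assumption)
  have hTang := ang_third T hdis.ccwT hTX
  obtain ⟨β, hβd⟩ : ∃ β : ℝ, β = EuclideanGeometry.angle (P 0 2) (P 0 1) (P 0 0) := ⟨_, rfl⟩
  have hβ : ¬ ∃ q : ℚ, β = q * π := by rw [hβd]; exact beta_irr ha hb hc (hP 0)
  have hcb : IsCoprime (c : ℤ) (b : ℤ) := by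
    rw [Nat.isCoprime_iff_coprime]
    by_contra hne
    obtain ⟨p, hp, hpc, hpb⟩ := Nat.Prime.not_coprime_iff_dvd.1 hne
    have h1 : p ∣ a ^ 2 + (b ^ 2 + a * b) := by
      have : a ^ 2 + (b ^ 2 + a * b) = c ^ 2 := by rw [hc]; ring
      rw [this]; exact dvd_pow hpc two_ne_zero
    have h2 : p ∣ b ^ 2 + a * b := by
      have : b ^ 2 + a * b = b * (b + a) := by ring
      rw [this]; exact dvd_mul_of_dvd_left hpb _
    have h3 : p ∣ a ^ 2 := (Nat.dvd_add_left h2).1 h1
    have h4 : p ∣ a := hp.dvd_of_dvd_pow h3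
    exact Nat.Prime.not_coprime_iff_dvd.2 ⟨p, hp, h4, hpb⟩ hab
  obtain ⟨s, hs1, hs2⟩ := exists_s (a := (a : ℤ)) (b := (b : ℤ)) (c := (c : ℤ)) hcb
    (by exact_mod_cast hc)
  have hz : dir T 0 ≠ 0 := by
    intro h
    have := Basic.norm_dir T hdis.ccwT 0
    rw [h, norm_zero] at this
    norm_num at this
  have hsum := Odd.odd_sum hdis (fun z => ((wt β (dir T 0) s z : ℤ) : ℂ)) (by
    intro z
    rw [wt_odd hβ hz]
    push_cast
    ring)
  obtain ⟨b0, b1, b2⟩ := big_sum hdis.ccwT hTang hβ s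
  rw [Fin.sum_univ_three (f := fun k => (len T k : ℂ) * ((wt β (dir T 0) s (dir T k) : ℤ) : ℂ)),
    b0, b1, b2, hTX] at hsum
  simp only [Int.cast_one, Int.cast_zero, mul_one, mul_zero, add_zero] at hsum
  set L : Fin 3 → ℤ := ![a, b, c] with hL
  have htile : ∀ i, ∑ m, (len (t i) m : ℂ) * ((wt β (dir T 0) s (dir (t i) m) : ℤ) : ℂ) =
      ((∑ m, L (τ i m) * wt β (dir T 0) s (dir (t i) m) : ℤ) : ℂ) := by
    intro i
    push_cast
    refine Finset.sum_congr rfl fun m _ => ?_
    rw [hlen, lens (hP 0)]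
    congr 1
    generalize τ i m = k
    fin_cases k <;> simp [hL]
  simp only [htile] at hsum
  rw [← Int.cast_sum] at hsum
  refine ⟨∑ i, ∑ m, L (τ i m) * wt β (dir T 0) s (dir (t i) m), ?_, ?_⟩
  · have : (((∑ i, ∑ m, L (τ i m) * wt β (dir T 0) s (dir (t i) m) : ℤ) : ℝ) : ℂ) = (X : ℂ) := by
      rw [← hsum]
      push_cast
      rfl
    exact (Complex.ofReal_injective this).symm
  · apply Finset.dvd_sum
    intro i _
    refine tile_sum (hdis.ccwt i) (τ i) hβ ?_ hz hs2 hs1 L (by simp [hL]) (by simp [hL])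
      (by simp [hL])
    intro m hm
    rw [hang, hm, hβd]
    rfl

/-- **Main theorem.** -/
theorem main {a b c : ℕ} (ha : 0 < a) (hb : 0 < b) (hab : Nat.Coprime a b)
    (hc : c ^ 2 = a ^ 2 + b ^ 2 + a * b) {X : ℝ} (hX : 0 < X) {A : Fin 3 → Plane}
    (hA : HasSides A X X X) {N : ℕ} {P : Fin N → Fin 3 → Plane} (hP : ∀ i, HasSides (P i) a b c)
    (hU : (⋃ i, convexHull ℝ (Set.range (P i))) = convexHull ℝ (Set.range A))
    (hD : ∀ i j, i ≠ j → Disjoint (interior (convexHull ℝ (Set.range (P i))))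
          (interior (convexHull ℝ (Set.range (P j))))) :
    ∃ m : ℕ, 0 < m ∧ X = m * (a * b) := by
  obtain ⟨M, hM, hbM⟩ := dvd_side ha hb hab hc hX hA hP hU hD
  have hr : ∀ i, Set.range (fun k => P i (Equiv.swap 0 1 k)) = Set.range (P i) := by
    intro i
    exact (Equiv.swap (0 : Fin 3) 1).surjective.range_comp (P i)
  obtain ⟨M', hM', haM⟩ := dvd_side (a := b) (b := a) (c := c) hb ha hab.symm
    (by rw [hc]; ring) hX hA (P := fun i k => P i (Equiv.swap 0 1 k)) (by
      intro i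
      obtain ⟨p1, p2, p3⟩ := hP i
      refine ⟨?_, ?_, ?_⟩
      · show dist (P i 0) (P i 2) = _
        rw [dist_comm]; exact p2
      · show dist (P i 2) (P i 1) = _
        rw [dist_comm]; exact p1
      · show dist (P i 1) (P i 0) = _
        rw [dist_comm]; exact p3) (by simp only [hr]; exact hU) (by simp only [hr]; exact hD)
  have hMM : M = M' := by
    have : (M : ℝ) = M' := by rw [← hM, ← hM']
    exact_mod_cast this
  rw [← hMM] at haM
  have hco : IsCoprime (a : ℤ) (b : ℤ) := Nat.isCoprime_iff_coprime.2 hab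
  obtain ⟨k, hk⟩ := hco.mul_dvd haM hbM
  have ha' : (0 : ℝ) < a := by exact_mod_cast ha
  have hb' : (0 : ℝ) < b := by exact_mod_cast hb
  have hXk : X = a * b * k := by
    rw [hM, hk]; push_cast; ring
  have hk0 : 0 < k := by
    by_contra h
    push Not at h
    have h1 : (k : ℝ) ≤ 0 := by exact_mod_cast h
    have h2 : (0 : ℝ) < a * b := by positivity
    nlinarith
  refine ⟨k.toNat, by omega, ?_⟩
  have : ((k.toNat : ℕ) : ℝ) = (k : ℝ) := by
    have h1 : ((k.toNat : ℕ) : ℤ) = k := Int.toNat_of_nonneg hk0.le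
    exact_mod_cast h1
  rw [this, hXk]
  ring

end Pool.Agent.R173.Tri120
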